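import Pool.Agent.H923R2.FP.Stubs

/-! Task ABS4 of helper923's project: from the limit to a reduced free product. -/

set_option autoImplicit false

open scoped ComplexConjugate

noncomputable section

namespace Pool.Agent.H923R2.FP.T_ABS4

open Pool.Agent.H923R2.FP

theorem freeFam_sub {A : Type} [CStarAlgebra A] {K K' : Type} (τ : A →ₗ[ℂ] ℂ)
    (S : K → StarSubalgebra ℂ A) (S' : K' → StarSubalgebra ℂ A) (g : K' → K)
    (hg : Function.Injective g) (hS : ∀ k, S' k = S (g k)) (h : FreeFam τ S) :
    FreeFam τ S' := by
  intro w hw hz hc
  have h1 := h (w.map fun z => (g z.1, z.2)) (by simpa using hw) (by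
    intro z hz'
    rw [List.mem_map] at hz'
    obtain ⟨y, hy, rfl⟩ := hz'
    have := hz y hy
    rw [hS] at this
    exact this) (by
    rw [List.isChain_map]
    exact hc.imp fun x y hxy => fun hcon => hxy (hg hcon))
  rw [List.map_map] at h1
  exact h1

open Classical in
theorem t_ABS4 (hU : S_UNG) : S_ABS4 := by
  intro J D _ t i0 A _ τ e f s h hS σ hwd hgen
  have e1 : Function.update e i0 σ i0 = σ := Function.update_self i0 σ e
  have e2 : ∀ k, k ≠ i0 → Function.update e i0 σ k = e k := fun k hk =>
    Function.update_of_ne hk σ e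
  have hRR : (⨆ k : {k // k ≠ i0}, (Function.update e i0 σ k.1).range) = RR e i0 := by
    unfold RR
    apply iSup_congr
    intro k
    rw [e2 k.1 k.2]
  have hone : ∀ z : Lt (D i0) (RR e i0), z.isS = false →
      τ (vl σ (RR e i0).subtype 0 z) = τ (vl (e i0) (RR e i0).subtype 0 z) := by
    intro z hz
    have := hwd [z] (by simpa using hz)
    simpa using this
  refine ⟨Function.update e i0 σ, h.fts, ?_, ?_, ?_⟩
  · intro j x
    by_cases hj : j = i0
    · subst hj
      rw [e1, ← h.tr j x]
      exact hone (Lt.q x) rfl
    · rw [e2 j hj]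
      exact h.tr j x
  · apply hU A τ h.fts J _ i0
    · apply freeFam_sub τ _ _ (fun k : {k // k ≠ i0} => some k.1) _ _ h.free
      · intro a b hab
        exact Subtype.ext (Option.some_injective _ hab)
      · intro k
        show (Function.update e i0 σ k.1).range = (e k.1).range
        rw [e2 k.1 k.2]
    · rw [hRR, e1]
      intro w hw0 hz hc
      -- choose letters
      have hex : ∀ z ∈ w, ∃ l : Lt (D i0) (RR e i0), l.isS = false ∧ l.isQ = z.1 ∧
          vl σ (RR e i0).subtype 0 l = z.2 := by
        rintro ⟨b, y⟩ hzw
        have := (hz _ hzw).1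
        cases b with
        | true =>
          simp only [if_true] at this
          obtain ⟨x, hx⟩ := this
          exact ⟨Lt.q x, rfl, rfl, hx⟩
        | false =>
          simp only [Bool.false_eq_true, if_false] at this
          exact ⟨Lt.r ⟨y, this⟩, rfl, rfl, rfl⟩
      have hlist : ∀ w : List (Bool × A), (∀ z ∈ w, ∃ l : Lt (D i0) (RR e i0), l.isS = false ∧
          l.isQ = z.1 ∧ vl σ (RR e i0).subtype 0 l = z.2) →
          ∃ v : List (Lt (D i0) (RR e i0)), v.map Lt.isQ = w.map Prod.fst ∧
            (∀ z ∈ v, z.isS = false) ∧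
            v.map (vl σ (RR e i0).subtype 0) = w.map Prod.snd := by
        intro w
        induction w with
        | nil => intro _; exact ⟨[], rfl, by simp, rfl⟩
        | cons a w ih =>
          intro hw
          obtain ⟨v, h1, h2, h3⟩ := ih fun z hz => hw z (List.mem_cons_of_mem _ hz)
          obtain ⟨l, hl1, hl2, hl3⟩ := hw a (by simp)
          refine ⟨l :: v, by simp [h1, hl2], ?_, by
            rw [List.map_cons, List.map_cons, h3, hl3]⟩
          intro z hz
          rcases List.mem_cons.mp hz with rfl | hz
          · exact hl1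
          · exact h2 z hz
      obtain ⟨v, h1, h2, h3⟩ := hlist w hex
      have hev : ev (vl σ (RR e i0).subtype 0) v = (w.map Prod.snd).prod := by
        unfold ev
        rw [h3]
      have hcent : ∀ z ∈ v, τ (vl σ (RR e i0).subtype 0 z) = 0 := by
        intro z hz'
        have : vl σ (RR e i0).subtype 0 z ∈ v.map (vl σ (RR e i0).subtype 0) :=
          List.mem_map_of_mem hz'
        rw [h3, List.mem_map] at this
        obtain ⟨y, hy, hy2⟩ := this
        rw [← hy2]
        exact (hz y hy).2
      rw [← hev, hwd v h2, ev_noS _ _ 0 s v h2]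
      apply hS.free v
      · rintro rfl
        simp only [List.map_nil] at h1
        exact hw0 (List.map_eq_nil_iff.mp h1.symm)
      · refine ⟨h2, ?_⟩
        have hc1 : (w.map Prod.fst).IsChain (fun x y => x ≠ y) := by
          rw [List.isChain_map]; exact hc
        rw [← h1, List.isChain_map] at hc1
        exact hc1
      · intro z hz'
        have := hone z (h2 z hz')
        rw [hcent z hz'] at this
        rw [this]
        congr 1
        have hz2 := h2 z hz'
        cases z with
        | q x => rfl
        | r x => rfl
        | s => simp [Lt.isS] at hz2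
  · rw [eq_top_iff]
    intro y _
    rw [← SetLike.mem_coe, StarSubalgebra.topologicalClosure_coe, Metric.mem_closure_iff]
    intro ε hε
    obtain ⟨E, hE1, hE2⟩ := hgen y ε hε
    refine ⟨evx (vl σ (RR e i0).subtype 0) E, ?_, by rw [dist_eq_norm]; exact hE2⟩
    set AD := StarAlgebra.adjoin ℂ (⋃ j, Set.range (Function.update e i0 σ j)) with hAD
    have hle : ∀ j x, Function.update e i0 σ j x ∈ AD := by
      intro j x
      apply StarAlgebra.subset_adjoin
      exact Set.mem_iUnion.mpr ⟨j, x, rfl⟩
    have hRRle : RR e i0 ≤ AD := by
      rw [← hRR]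
      apply iSup_le
      rintro k y ⟨x, rfl⟩
      exact hle k.1 x
    have hlet : ∀ z : Lt (D i0) (RR e i0), vl σ (RR e i0).subtype 0 z ∈ AD := by
      intro z
      cases z with
      | q x =>
        have := hle i0 x
        rw [e1] at this
        exact this
      | r x => exact hRRle x.2
      | s => exact AD.zero_mem
    have hev : ∀ v : List (Lt (D i0) (RR e i0)), ev (vl σ (RR e i0).subtype 0) v ∈ AD := by
      intro v
      induction v with
      | nil => exact AD.one_mem
      | cons z v ih =>
        rw [ev_cons]
        exact AD.mul_mem (hlet z) ih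
    have hevx : ∀ E : Ex (D i0) (RR e i0), evx (vl σ (RR e i0).subtype 0) E ∈ AD := by
      intro E
      induction E with
      | nil => exact AD.zero_mem
      | cons p E ih =>
        rw [evx_cons]
        exact AD.add_mem (AD.smul_mem (hev p.2) p.1) ih
    exact hevx E

end Pool.Agent.H923R2.FP.T_ABS4
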